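import Pool.Agent.Y328.CC.Act2

/-!
Project CC (helper328), part IDX (helper487): failure of cancellation from an equivariant
`m`-to-one map of transitive actions and a ray in the base.
-/

set_option autoImplicit false

open scoped Pointwise
open Set Function MeasureTheory

universe u v w

namespace Pool.Agent.Y487.CC

open Pool.Agent.Y328.CC

section alg

variable {G : Type u} {Z Y : Type v} [AddGroup G] [AddAction G Z] [AddAction G Y] (π : Z → Y)

/-- the exceptional set: the fibre is neither contained in `E` nor disjoint from `E` -/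
def Exc (E : Set Z) : Set Y := {y | ¬ ((∀ z, π z = y → z ∈ E) ∨ (∀ z, π z = y → z ∉ E))}

/-- the algebra -/
def Alg : Set (Set Z) := {E | (Exc π E).Finite}

theorem isSetAlgebra_alg : IsSetAlgebra (Alg π) where
  empty_mem := by
    have h : Exc π (∅ : Set Z) = ∅ := by
      rw [Set.eq_empty_iff_forall_notMem]
      intro y hy
      exact hy (Or.inr (fun z _ => Set.notMem_empty z))
    show (Exc π (∅ : Set Z)).Finite
    rw [h]
    exact Set.finite_empty
  compl_mem := by
    intro E hE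
    refine Set.Finite.subset hE ?_
    intro y hy hn
    apply hy
    rcases hn with h | h
    · exact Or.inr (fun z hz hc => hc (h z hz))
    · exact Or.inl (fun z hz => h z hz)
  union_mem := by
    intro E F hE hF
    refine Set.Finite.subset (Set.Finite.union hE hF) ?_
    intro y hy
    by_contra hn
    rw [Set.mem_union, not_or] at hn
    obtain ⟨h1, h2⟩ := hn
    have h1' : (∀ z, π z = y → z ∈ E) ∨ (∀ z, π z = y → z ∉ E) := not_not.1 h1
    have h2' : (∀ z, π z = y → z ∈ F) ∨ (∀ z, π z = y → z ∉ F) := not_not.1 h2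
    apply hy
    rcases h1' with h | h
    · exact Or.inl (fun z hz => Or.inl (h z hz))
    · rcases h2' with h' | h'
      · exact Or.inl (fun z hz => Or.inr (h' z hz))
      · refine Or.inr (fun z hz hc => ?_)
        rcases hc with hc | hc
        · exact h z hz hc
        · exact h' z hz hc

variable {π}

theorem inv_alg (hπ : ∀ (g : G) (z : Z), π (g +ᵥ z) = g +ᵥ π z) : Inv G (Alg π) := by
  intro g E hE
  refine Set.Finite.subset (Set.Finite.image (fun y => g +ᵥ y) hE) ?_
  intro y hy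
  refine ⟨-g +ᵥ y, ?_, vadd_neg_vadd g y⟩
  intro hn
  apply hy
  rcases hn with h | h
  · left
    intro z hz
    rw [mem_v]
    apply h
    rw [hπ, hz]
  · right
    intro z hz
    rw [mem_v]
    apply h
    rw [hπ, hz]

theorem exc_preimage (T : Set Y) : Exc π (π ⁻¹' T) = ∅ := by
  rw [Set.eq_empty_iff_forall_notMem]
  intro y hy
  apply hy
  by_cases h : y ∈ T
  · left
    intro z hz
    rw [Set.mem_preimage, hz]
    exact h
  · right
    intro z hz
    rw [Set.mem_preimage, hz]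
    exact h

theorem preimage_mem (T : Set Y) : π ⁻¹' T ∈ Alg π := by
  show (Exc π (π ⁻¹' T)).Finite
  rw [exc_preimage]
  exact Set.finite_empty

theorem finite_mem {E : Set Z} (hE : E.Finite) : E ∈ Alg π := by
  refine Set.Finite.subset (hE.image π) ?_
  intro y hy
  by_contra hn
  apply hy
  right
  intro z hz hc
  exact hn ⟨z, hc, hz⟩

end alg

section tau

variable {G : Type u} {Z Y : Type v} [AddGroup G] [AddAction G Z] [AddAction G Y] {π : Z → Y}
  {m : ℕ} {F : Y → Finset Z}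

open Classical in
/-- the number of points of `E` in a fibre, modulo `m` -/
noncomputable def cnt (m : ℕ) (F : Y → Finset Z) (E : Set Z) (y : Y) : ZMod m :=
  ∑ z ∈ F y, if z ∈ E then 1 else 0

/-- the total number, modulo `m` -/
noncomputable def tau (m : ℕ) (F : Y → Finset Z) (E : Set Z) : ZMod m := ∑ᶠ y, cnt m F E y

theorem cnt_eq_zero (hF : ∀ y z, z ∈ F y ↔ π z = y) (hc : ∀ y, (F y).card = m) {E : Set Z} {y : Y}
    (hy : y ∉ Exc π E) : cnt m F E y = 0 := by
  classical
  have h : (∀ z, π z = y → z ∈ E) ∨ (∀ z, π z = y → z ∉ E) := not_not.1 hy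
  unfold cnt
  rcases h with h | h
  · rw [Finset.sum_congr rfl (g := fun _ => (1 : ZMod m))
      (fun z hz => if_pos (h z ((hF y z).1 hz)))]
    rw [Finset.sum_const, hc, nsmul_eq_mul, mul_one, ZMod.natCast_self]
  · exact Finset.sum_eq_zero (fun z hz => if_neg (h z ((hF y z).1 hz)))

theorem support_finite (hF : ∀ y z, z ∈ F y ↔ π z = y) (hc : ∀ y, (F y).card = m) {E : Set Z}
    (hE : E ∈ Alg π) : (Function.support (cnt m F E)).Finite := by
  refine Set.Finite.subset hE ?_
  intro y hy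
  by_contra hn
  exact hy (cnt_eq_zero hF hc hn)

theorem tau_preimage (hF : ∀ y z, z ∈ F y ↔ π z = y) (hc : ∀ y, (F y).card = m) (T : Set Y) :
    tau m F (π ⁻¹' T) = 0 := by
  unfold tau
  rw [finsum_congr (g := fun _ => (0 : ZMod m)) (fun y => cnt_eq_zero hF hc (by
    rw [exc_preimage]; exact Set.notMem_empty y))]
  exact finsum_zero

theorem tau_singleton (hF : ∀ y z, z ∈ F y ↔ π z = y) (z0 : Z) : tau m F {z0} = 1 := by
  classical
  unfold tau
  rw [finsum_eq_single _ (π z0)]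
  · unfold cnt
    rw [Finset.sum_eq_single z0]
    · exact if_pos (Set.mem_singleton z0)
    · intro z _ hz
      exact if_neg hz
    · intro h
      exact absurd ((hF _ _).2 rfl) h
  · intro y hy
    unfold cnt
    refine Finset.sum_eq_zero (fun z hz => if_neg ?_)
    intro h
    rw [Set.mem_singleton_iff] at h
    rw [hF, h] at hz
    exact hy hz.symm

theorem tau_vadd (hF : ∀ y z, z ∈ F y ↔ π z = y)
    (hπ : ∀ (g : G) (z : Z), π (g +ᵥ z) = g +ᵥ π z) (g : G) (E : Set Z) :
    tau m F (g +ᵥ E) = tau m F E := by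
  classical
  unfold tau
  rw [← finsum_comp_equiv (AddAction.toPerm g : Equiv.Perm Y)]
  apply finsum_congr
  intro y
  unfold cnt
  refine Finset.sum_nbij' (fun z => -g +ᵥ z) (fun z => g +ᵥ z) ?_ ?_ ?_ ?_ ?_
  · intro z hz
    rw [hF] at hz ⊢
    rw [hπ, hz, AddAction.toPerm_apply, neg_vadd_vadd]
  · intro z hz
    rw [hF] at hz ⊢
    rw [hπ, hz, AddAction.toPerm_apply]
  · intro z _
    exact vadd_neg_vadd g z
  · intro z _
    exact neg_vadd_vadd g z
  · intro z _
    simp only [mem_v]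

theorem tau_iUnion (hF : ∀ y z, z ∈ F y ↔ π z = y) (hc : ∀ y, (F y).card = m) {k : ℕ}
    (C : Fin k → Set Z) (hC : ∀ i, C i ∈ Alg π) (hd : Pairwise (Disjoint on C)) :
    tau m F (⋃ i, C i) = ∑ i, tau m F (C i) := by
  classical
  unfold tau
  rw [← finsum_sum_comm Finset.univ (fun y i => cnt m F (C i) y)
    (fun i _ => support_finite hF hc (hC i))]
  apply finsum_congr
  intro y
  unfold cnt
  rw [Finset.sum_comm]
  apply Finset.sum_congr rfl
  intro z _
  by_cases h : z ∈ ⋃ i, C i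
  · rw [if_pos h]
    obtain ⟨i, hi⟩ := Set.mem_iUnion.1 h
    rw [Finset.sum_eq_single i]
    · exact (if_pos hi).symm
    · intro j _ hj
      refine if_neg (fun hz => ?_)
      exact Set.disjoint_left.1 (hd hj) hz hi
    · intro h
      exact absurd (Finset.mem_univ i) h
  · rw [if_neg h]
    symm
    refine Finset.sum_eq_zero (fun i _ => if_neg (fun hz => h (Set.mem_iUnion.2 ⟨i, hz⟩)))

theorem tau_equi (hF : ∀ y z, z ∈ F y ↔ π z = y) (hc : ∀ y, (F y).card = m)
    (hπ : ∀ (g : G) (z : Z), π (g +ᵥ z) = g +ᵥ π z) {A B : Set Z} (h : Equi G (Alg π) A B) :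
    tau m F A = tau m F B := by
  obtain ⟨k, C, g, h1, h2, h3, h4, h5, h6⟩ := h
  rw [← h4, ← h6, tau_iUnion hF hc C h1 h3, tau_iUnion hF hc _ h2 h5]
  apply Finset.sum_congr rfl
  intro i _
  rw [tau_vadd hF hπ]

theorem tau_diff (hF : ∀ y z, z ∈ F y ↔ π z = y) (hc : ∀ y, (F y).card = m) {A : Set Z} {z0 : Z}
    (hz0 : z0 ∈ A) (hB : A \ {z0} ∈ Alg π) :
    tau m F A = tau m F (A \ {z0}) + 1 := by
  classical
  rw [← tau_singleton (m := m) hF z0]
  unfold tau
  rw [← finsum_add_distrib (support_finite hF hc hB)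
    (support_finite hF hc (finite_mem (Set.finite_singleton z0)))]
  apply finsum_congr
  intro y
  unfold cnt
  rw [← Finset.sum_add_distrib]
  apply Finset.sum_congr rfl
  intro z _
  by_cases h : z = z0
  · rw [if_pos (by rw [h]; exact hz0), if_neg (fun hh => hh.2 h),
      if_pos (show z ∈ ({z0} : Set Z) from h), zero_add]
  · have h' : z ∉ ({z0} : Set Z) := h
    by_cases h2 : z ∈ A
    · rw [if_pos h2, if_pos ⟨h2, h⟩, if_neg h', add_zero]
    · rw [if_neg h2, if_neg (fun hh => h2 hh.1), if_neg h', add_zero]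

end tau

section pieces

variable {G : Type u} {Z Y : Type v} [AddGroup G] [AddAction G Z] [AddAction G Y] {π : Z → Y}

/-- the pieces -/
def pc (π : Z → Y) (m : ℕ) (r : ℕ → Y) (s : ℕ → G) (z0 : Z) (S : Finset G) (i0 : Fin m) :
    Fin m ⊕ Fin m ⊕ S ⊕ Fin m → Set Z
  | .inl j => {z | j ≠ i0 ∧ ∃ n, π z = r (n + 1)}
  | .inr (.inl _) => {z | π z = r 0 ∧ z ≠ z0}
  | .inr (.inr (.inl g)) => {z | ∃ n, π z = r (n + 1) ∧ s (n + 1) = g}
  | .inr (.inr (.inr _)) => {z0}

/-- the translations -/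
def tr (m : ℕ) (s : ℕ → G) (h : Fin m → G) (S : Finset G) : Fin m ⊕ Fin m ⊕ S ⊕ Fin m → G
  | .inl _ => 0
  | .inr (.inl _) => 0
  | .inr (.inr (.inl g)) => g
  | .inr (.inr (.inr j)) => s 0 + h j

/-- the copies of the source -/
def sc (m : ℕ) (S : Finset G) (i0 : Fin m) : Fin m ⊕ Fin m ⊕ S ⊕ Fin m → Fin m
  | .inl j => j
  | .inr (.inl j) => j
  | .inr (.inr (.inl _)) => i0
  | .inr (.inr (.inr j)) => j

/-- the copies of the target -/
def tc (m : ℕ) (S : Finset G) (i0 : Fin m) : Fin m ⊕ Fin m ⊕ S ⊕ Fin m → Fin m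
  | .inl j => j
  | .inr (.inl j) => j
  | .inr (.inr (.inl _)) => i0
  | .inr (.inr (.inr _)) => i0

theorem mulEqui_main (hπ : ∀ (g : G) (z : Z), π (g +ᵥ z) = g +ᵥ π z) {m : ℕ} (i0 : Fin m)
    (hfin : ∀ y : Y, {z : Z | π z = y}.Finite)
    (S : Finset G) (r : ℕ → Y) (hr : Injective r) (s : ℕ → G) (hs : ∀ n, s n ∈ S)
    (hrs : ∀ n, r (n + 1) = s n +ᵥ r n) (z0 : Z) (hz0 : π z0 = r 0)
    (e : Fin m ≃ {z : Z // π z = r 0}) (h : Fin m → G) (he : ∀ j, h j +ᵥ z0 = (e j : Z)) :
    MulEqui G (Alg π) m (π ⁻¹' (range r)) (π ⁻¹' (range r) \ {z0}) := by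
  have hne : ∀ a b, r a = r b → a = b := fun a b hab => hr hab
  -- facts on the translated pieces
  have f3 : ∀ (g : G) (y : Z), -g +ᵥ y ∈ {z : Z | ∃ n, π z = r (n + 1) ∧ s (n + 1) = g} ↔
      ∃ n, π y = r (n + 2) ∧ s (n + 1) = g := by
    intro g y
    constructor
    · rintro ⟨n, h1, h2⟩
      refine ⟨n, ?_, h2⟩
      rw [hπ] at h1
      rw [hrs (n + 1), h2, ← h1, vadd_neg_vadd]
    · rintro ⟨n, h1, h2⟩
      refine ⟨n, ?_, h2⟩
      rw [hπ, h1, hrs (n + 1), h2, neg_vadd_vadd]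
  have f4 : ∀ (j : Fin m) (y : Z), -(s 0 + h j) +ᵥ y ∈ ({z0} : Set Z) ↔
      y = s 0 +ᵥ (e j : Z) := by
    intro j y
    rw [Set.mem_singleton_iff, neg_vadd_eq_iff, add_vadd, he]
  have f5 : ∀ (j : Fin m), π (s 0 +ᵥ (e j : Z)) = r 1 := by
    intro j
    rw [hπ, (e j).2, ← hrs 0]
  apply mulEqui_of_pointwise (inv_alg hπ) (pc π m r s z0 S i0) (tr m s h S) (sc m S i0)
    (tc m S i0)
  · -- in the algebra
    rintro (j | j | g | j)
    · by_cases hj : j = i0
      · refine finite_mem (Set.Finite.subset Set.finite_empty ?_)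
        rintro z ⟨h1, _⟩
        exact h1 hj
      · have e1 : pc π m r s z0 S i0 (.inl j) = π ⁻¹' {y | ∃ n, y = r (n + 1)} := by
          ext z
          exact ⟨fun hz => hz.2, fun hz => ⟨hj, hz⟩⟩
        rw [e1]
        exact preimage_mem _
    · exact finite_mem (Set.Finite.subset (hfin (r 0)) (fun z hz => hz.1))
    · exact preimage_mem {y | ∃ n, y = r (n + 1) ∧ s (n + 1) = g}
    · exact finite_mem (Set.finite_singleton z0)
  · -- the pieces are subsets of A
    rintro (j | j | g | j)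
    · rintro z ⟨_, n, hn⟩
      exact ⟨n + 1, hn.symm⟩
    · rintro z ⟨hn, _⟩
      exact ⟨0, hn.symm⟩
    · rintro z ⟨n, hn, _⟩
      exact ⟨n + 1, hn.symm⟩
    · rintro z hz
      rw [Set.mem_singleton_iff.1 hz]
      exact ⟨0, hz0.symm⟩
  · -- partition of the source
    rintro x ⟨n, hn⟩ l
    rcases Nat.eq_zero_or_pos n with rfl | hpos
    · by_cases hx : x = z0
      · refine ⟨.inr (.inr (.inr l)), ⟨rfl, hx⟩, ?_⟩
        rintro (j | j | g | j) ⟨h1, h2⟩
        · obtain ⟨_, k, hk⟩ := h2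
          exact absurd (hne _ _ (hn.trans hk)) (by omega)
        · exact absurd hx h2.2
        · obtain ⟨k, hk, _⟩ := h2
          exact absurd (hne _ _ (hn.trans hk)) (by omega)
        · rw [show j = l from h1]
      · refine ⟨.inr (.inl l), ⟨rfl, hn.symm, hx⟩, ?_⟩
        rintro (j | j | g | j) ⟨h1, h2⟩
        · obtain ⟨_, k, hk⟩ := h2
          exact absurd (hne _ _ (hn.trans hk)) (by omega)
        · rw [show j = l from h1]
        · obtain ⟨k, hk, _⟩ := h2
          exact absurd (hne _ _ (hn.trans hk)) (by omega)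
        · exact absurd h2 hx
    · obtain ⟨k, rfl⟩ : ∃ k, n = k + 1 := ⟨n - 1, by omega⟩
      by_cases hl : l = i0
      · refine ⟨.inr (.inr (.inl ⟨s (k + 1), hs _⟩)), ⟨hl.symm, k, hn.symm, rfl⟩, ?_⟩
        rintro (j | j | g | j) ⟨h1, h2⟩
        · exact absurd ((show j = l from h1).trans hl) h2.1
        · exact absurd (hne _ _ (hn.trans h2.1)) (by omega)
        · obtain ⟨k', hk, hg⟩ := h2
          have e1 : k = k' := by
            have := hne _ _ (hn.trans hk)
            omega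
          have e2 : g = ⟨s (k + 1), hs _⟩ := Subtype.ext (by rw [← hg, e1])
          rw [e2]
        · have e1 : x = z0 := h2
          rw [e1, hz0] at hn
          exact absurd (hne _ _ hn) (by omega)
      · refine ⟨.inl l, ⟨rfl, hl, k, hn.symm⟩, ?_⟩
        rintro (j | j | g | j) ⟨h1, h2⟩
        · rw [show j = l from h1]
        · exact absurd (hne _ _ (hn.trans h2.1)) (by omega)
        · exact absurd (show i0 = l from h1).symm hl
        · have e1 : x = z0 := h2
          rw [e1, hz0] at hn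
          exact absurd (hne _ _ hn) (by omega)
  · -- the translated pieces are subsets of B
    have key : ∀ y : Z, (∃ n, π y = r (n + 1)) → y ∈ π ⁻¹' (range r) \ {z0} := by
      rintro y ⟨n, hn⟩
      refine ⟨⟨n + 1, hn.symm⟩, ?_⟩
      intro hy
      have e1 : y = z0 := hy
      rw [e1, hz0] at hn
      exact absurd (hne _ _ hn) (by omega)
    rintro (j | j | g | j) x hx
    · show (0 : G) +ᵥ x ∈ _
      rw [zero_vadd]
      exact key x hx.2
    · show (0 : G) +ᵥ x ∈ _
      rw [zero_vadd]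
      exact ⟨⟨0, hx.1.symm⟩, hx.2⟩
    · show (g : G) +ᵥ x ∈ _
      obtain ⟨n, h1, h2⟩ := hx
      refine key _ ⟨n + 1, ?_⟩
      rw [hπ, h1, hrs (n + 1), h2]
    · show (s 0 + h j) +ᵥ x ∈ _
      have e1 : x = z0 := hx
      rw [e1, add_vadd, he]
      exact key _ ⟨0, f5 j⟩
  · -- partition of the target
    rintro y ⟨⟨n, hn⟩, hy⟩ l
    have hy' : y ≠ z0 := hy
    have c1 : ∀ j, (tc m S i0 (.inl j) = l ∧
        -(tr m s h S (.inl j)) +ᵥ y ∈ pc π m r s z0 S i0 (.inl j)) ↔
        (j = l ∧ j ≠ i0 ∧ ∃ k, π y = r (k + 1)) := by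
      intro j
      show (j = l ∧ -(0 : G) +ᵥ y ∈ {z : Z | j ≠ i0 ∧ ∃ n, π z = r (n + 1)}) ↔ _
      rw [neg_zero, zero_vadd]
      rfl
    have c2 : ∀ j, (tc m S i0 (.inr (.inl j)) = l ∧
        -(tr m s h S (.inr (.inl j))) +ᵥ y ∈ pc π m r s z0 S i0 (.inr (.inl j))) ↔
        (j = l ∧ π y = r 0) := by
      intro j
      show (j = l ∧ -(0 : G) +ᵥ y ∈ {z : Z | π z = r 0 ∧ z ≠ z0}) ↔ _
      rw [neg_zero, zero_vadd]
      exact ⟨fun hh => ⟨hh.1, hh.2.1⟩, fun hh => ⟨hh.1, hh.2, hy'⟩⟩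
    have c3 : ∀ g : S, (tc m S i0 (.inr (.inr (.inl g))) = l ∧
        -(tr m s h S (.inr (.inr (.inl g)))) +ᵥ y ∈ pc π m r s z0 S i0 (.inr (.inr (.inl g)))) ↔
        (i0 = l ∧ ∃ k, π y = r (k + 2) ∧ s (k + 1) = g) := by
      intro g
      show (i0 = l ∧ -(g : G) +ᵥ y ∈ {z : Z | ∃ n, π z = r (n + 1) ∧ s (n + 1) = g}) ↔ _
      rw [f3]
    have c4 : ∀ j, (tc m S i0 (.inr (.inr (.inr j))) = l ∧
        -(tr m s h S (.inr (.inr (.inr j)))) +ᵥ y ∈ pc π m r s z0 S i0 (.inr (.inr (.inr j)))) ↔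
        (i0 = l ∧ y = s 0 +ᵥ (e j : Z)) := by
      intro j
      show (i0 = l ∧ -(s 0 + h j) +ᵥ y ∈ ({z0} : Set Z)) ↔ _
      rw [f4]
    rcases Nat.eq_zero_or_pos n with rfl | hpos
    · refine ⟨.inr (.inl l), (c2 l).2 ⟨rfl, hn.symm⟩, ?_⟩
      rintro (j | j | g | j) hj
      · obtain ⟨_, _, k, hk⟩ := (c1 j).1 hj
        exact absurd (hne _ _ (hn.trans hk)) (by omega)
      · rw [((c2 j).1 hj).1]
      · obtain ⟨_, k, hk, _⟩ := (c3 g).1 hj
        exact absurd (hne _ _ (hn.trans hk)) (by omega)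
      · obtain ⟨_, hk⟩ := (c4 j).1 hj
        rw [hk, f5] at hn
        exact absurd (hne _ _ hn) (by omega)
    · obtain ⟨k, rfl⟩ : ∃ k, n = k + 1 := ⟨n - 1, by omega⟩
      by_cases hl : i0 = l
      · rcases Nat.eq_zero_or_pos k with rfl | hpos2
        · have e1 : π (-(s 0) +ᵥ y) = r 0 := by
            rw [hπ, ← hn, hrs 0, neg_vadd_vadd]
          have e2 : y = s 0 +ᵥ (e (e.symm ⟨-(s 0) +ᵥ y, e1⟩) : Z) := by
            rw [Equiv.apply_symm_apply, vadd_neg_vadd]
          refine ⟨.inr (.inr (.inr (e.symm ⟨-(s 0) +ᵥ y, e1⟩))), (c4 _).2 ⟨hl, e2⟩, ?_⟩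
          rintro (j | j | g | j) hj
          · obtain ⟨h1, h2, _⟩ := (c1 j).1 hj
            exact absurd (h1.trans hl.symm) h2
          · exact absurd (hne _ _ (hn.trans ((c2 j).1 hj).2)) (by omega)
          · obtain ⟨_, k, hk, _⟩ := (c3 g).1 hj
            exact absurd (hne _ _ (hn.trans hk)) (by omega)
          · obtain ⟨_, hk⟩ := (c4 j).1 hj
            have e3 : (⟨-(s 0) +ᵥ y, e1⟩ : {z : Z // π z = r 0}) = e j := by
              apply Subtype.ext
              show -(s 0) +ᵥ y = (e j : Z)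
              rw [hk, neg_vadd_vadd]
            rw [e3, Equiv.symm_apply_apply]
        · obtain ⟨k', rfl⟩ : ∃ k', k = k' + 1 := ⟨k - 1, by omega⟩
          refine ⟨.inr (.inr (.inl ⟨s (k' + 1), hs _⟩)), (c3 _).2 ⟨hl, k', hn.symm, rfl⟩, ?_⟩
          rintro (j | j | g | j) hj
          · obtain ⟨h1, h2, _⟩ := (c1 j).1 hj
            exact absurd (h1.trans hl.symm) h2
          · exact absurd (hne _ _ (hn.trans ((c2 j).1 hj).2)) (by omega)
          · obtain ⟨_, k, hk, hg⟩ := (c3 g).1 hj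
            have e1 : k' = k := by
              have := hne _ _ (hn.trans hk)
              omega
            have e2 : g = ⟨s (k' + 1), hs _⟩ := Subtype.ext (by rw [← hg, e1])
            rw [e2]
          · obtain ⟨_, hk⟩ := (c4 j).1 hj
            rw [hk, f5] at hn
            exact absurd (hne _ _ hn) (by omega)
      · refine ⟨.inl l, (c1 l).2 ⟨rfl, fun hh => hl hh.symm, k, hn.symm⟩, ?_⟩
        rintro (j | j | g | j) hj
        · rw [((c1 j).1 hj).1]
        · exact absurd (hne _ _ (hn.trans ((c2 j).1 hj).2)) (by omega)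
        · exact absurd ((c3 g).1 hj).1 hl
        · exact absurd ((c4 j).1 hj).1 hl

end pieces

theorem t_IDX : Pool.Agent.Y328.CC.S_IDX.{u, v} := by
  classical
  intro G Z Y _ _ _ _ π hπ m hm hcard S r hr hS
  have hm0 : m ≠ 0 := by omega
  have hfin : ∀ y : Y, Finite {z : Z // π z = y} := by
    intro y
    apply Nat.finite_of_card_ne_zero
    rw [hcard]
    exact hm0
  have hfin' : ∀ y : Y, {z : Z | π z = y}.Finite := fun y => hfin y
  choose s hs using hS
  have hs1 : ∀ n, s n ∈ S := fun n => (hs n).1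
  have hrs : ∀ n, r (n + 1) = s n +ᵥ r n := fun n => (hs n).2
  have e : Fin m ≃ {z : Z // π z = r 0} := (Finite.equivFinOfCardEq (hcard (r 0))).symm
  have i0 : Fin m := ⟨0, by omega⟩
  obtain ⟨z0, hz0⟩ : ∃ z0 : Z, π z0 = r 0 := ⟨e i0, (e i0).2⟩
  have hh : ∀ j : Fin m, ∃ g : G, g +ᵥ z0 = (e j : Z) := fun j =>
    AddAction.exists_vadd_eq G z0 (e j : Z)
  choose h he using hh
  have hF : ∀ (y : Y) (z : Z), z ∈ (hfin' y).toFinset ↔ π z = y := by
    intro y z
    rw [Set.Finite.mem_toFinset]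
    rfl
  have hc : ∀ y : Y, ((hfin' y).toFinset).card = m := by
    intro y
    rw [← hcard y, ← Set.ncard_eq_toFinset_card _ (hfin' y)]
    rfl
  have hB : π ⁻¹' (range r) \ {z0} ∈ Alg π := by
    have h1 := (isSetAlgebra_alg π).inter_mem (preimage_mem (π := π) (range r))
      ((isSetAlgebra_alg π).compl_mem (finite_mem (π := π) (Set.finite_singleton z0)))
    exact h1
  refine ⟨Alg π, isSetAlgebra_alg π, inv_alg hπ, π ⁻¹' (range r), preimage_mem _,
    π ⁻¹' (range r) \ {z0}, hB,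
    mulEqui_main hπ i0 hfin' S r hr s hs1 hrs z0 hz0 e h he, ?_⟩
  intro hE
  have h1 := tau_equi hF hc hπ hE
  have h2 := tau_diff hF hc (A := π ⁻¹' (range r)) (z0 := z0) ⟨0, hz0.symm⟩ hB
  rw [tau_preimage hF hc] at h1 h2
  rw [← h1, zero_add] at h2
  have : Fact (1 < m) := ⟨by omega⟩
  exact zero_ne_one h2

end Pool.Agent.Y487.CC
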